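import Pool.Agent.Helper28.QU.P6
import Pool.Agent.Helper83.RelQ.Defs

/-!
# T-REL for quadric bundles, Q4: two constant vectors over the base ring
-/

set_option autoImplicit false

namespace Pool.Agent.Helper28.RelQ

open Matrix Pool.Agent.Helper49.QU Pool.Agent.Helper28.QU

variable {n : ℕ}

/-- three orthogonal anisotropic vectors over the fraction field -/
theorem exists_vecR {K : Type} [Field K] [CharZero K] {A : Type} [CommRing A] [IsDomain A]
    [Algebra K A] {M : ℕ} (B : Matrix (Fin M) (Fin M) (MvPolynomial (Fin n) A))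
    (hB : B.IsSymm) (h : ∃ f g : Fin 3 → Fin M, (B.submatrix f g).det ≠ 0) :
    ∃ V : Fin 3 → Fin M → FractionRing (MvPolynomial (Fin n) A),
      D1 (B.map (algebraMap _ (FractionRing (MvPolynomial (Fin n) A)))) V ≠ 0 ∧
      D2 (B.map (algebraMap _ (FractionRing (MvPolynomial (Fin n) A)))) V ≠ 0 ∧
      D3 (B.map (algebraMap _ (FractionRing (MvPolynomial (Fin n) A)))) V ≠ 0 := by
  obtain ⟨f, g, hfg⟩ := h
  have hinj : Function.Injective
      (algebraMap (MvPolynomial (Fin n) A) (FractionRing (MvPolynomial (Fin n) A))) :=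
    IsFractionRing.injective _ _
  have hA : CharZero A := charZero_of_injective_algebraMap (algebraMap K A).injective
  have hC : CharZero (MvPolynomial (Fin n) A) :=
    charZero_of_injective_algebraMap (MvPolynomial.C_injective (Fin n) A)
  have hch : CharZero (FractionRing (MvPolynomial (Fin n) A)) :=
    charZero_of_injective_algebraMap hinj
  obtain ⟨V, h1, h2⟩ := exists_three
    (B.map (algebraMap _ (FractionRing (MvPolynomial (Fin n) A)))) (by
      unfold Matrix.IsSymm
      rw [← Matrix.transpose_map, hB.eq]) f g (by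
      rw [Matrix.submatrix_map, ← RingHom.mapMatrix_apply, ← RingHom.map_det]
      exact (map_ne_zero_iff _ hinj).2 hfg)
  exact ⟨V, D_ne_zero _ V h1 h2⟩

/-- **Q4.** two constant vectors -/
theorem exists_constR {K : Type} [Field K] [CharZero K] {A : Type} [CommRing A] [IsDomain A]
    [Algebra K A] {M : ℕ} (B : Matrix (Fin M) (Fin M) (MvPolynomial (Fin n) A))
    (hB : B.IsSymm) (h : ∃ f g : Fin 3 → Fin M, (B.submatrix f g).det ≠ 0) :
    ∃ v : Fin 3 → Fin M → A, D1 B (fun c j => MvPolynomial.C (v c j)) *
      D2 B (fun c j => MvPolynomial.C (v c j)) ≠ 0 := by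
  classical
  obtain ⟨V, h1, h2, -⟩ := exists_vecR (K := K) B hB h
  have hA : CharZero A := charZero_of_injective_algebraMap (algebraMap K A).injective
  have hAi : Infinite A := Infinite.of_injective (Nat.cast : ℕ → A) Nat.cast_injective
  let P := MvPolynomial (Fin n) A
  let F := FractionRing P
  let BB : Matrix (Fin M) (Fin M) (MvPolynomial (Fin 3 × Fin M) P) := B.map MvPolynomial.C
  let X : Fin 3 → Fin M → MvPolynomial (Fin 3 × Fin M) P := fun c j => MvPolynomial.X (c, j)
  have hP : D1 BB X * D2 BB X ≠ 0 := by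
    let ψ : MvPolynomial (Fin 3 × Fin M) P →+* F := MvPolynomial.eval₂Hom
      (algebraMap P F) (fun s => V s.1 s.2)
    have e1 : BB.map ψ = B.map (algebraMap P F) := by
      ext1 a b
      change ψ (MvPolynomial.C (B a b)) = algebraMap P F (B a b)
      exact MvPolynomial.eval₂_C _ _ _
    have e2 : (fun c j => ψ (X c j)) = V := by
      funext c j
      exact MvPolynomial.eval₂_X _ _ _
    refine mul_ne_zero (fun h0 => h1 ?_) (fun h0 => h2 ?_)
    · rw [← e1, ← e2, ← map_D1, h0, map_zero]
    · rw [← e1, ← e2, ← map_D2, h0, map_zero]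
  by_contra hcon
  push Not at hcon
  apply hP
  refine MvPolynomial.funext_set (fun _ => Set.range (MvPolynomial.C : A → P))
    (fun _ => Set.infinite_range_of_injective (MvPolynomial.C_injective _ _)) ?_
  intro y hy
  rw [map_zero]
  have hy' : ∀ s : Fin 3 × Fin M, ∃ a : A, (MvPolynomial.C a : P) = y s := fun s =>
    hy s (Set.mem_univ s)
  choose a ha using hy'
  have e3 : BB.map (MvPolynomial.eval y) = B := by
    ext1 i j
    change MvPolynomial.eval y (MvPolynomial.C (B i j)) = B i j
    exact MvPolynomial.eval_C _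
  have e4 : (fun c j => MvPolynomial.eval y (X c j)) =
      fun c j => (MvPolynomial.C (a (c, j)) : P) := by
    funext c j
    rw [ha]
    exact MvPolynomial.eval_X _
  rw [map_mul, map_D1, map_D2, e3, e4]
  exact hcon fun c j => a (c, j)

end Pool.Agent.Helper28.RelQ
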